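import Mathlib
import Pool.Agent.MP_8df504_an.Defs
import Pool.Agent.MP_8df504_an.ClassDefs
import Pool.Agent.Mg.F8df504.G07448c

set_option autoImplicit false

namespace Pool.Agent.Results.MP_8df504_an.Q1Class

open Pool.Agent.MP_8df504_an Set Filter Topology MeasureTheory

/-- The broken-linear maps for which the averages converge almost everywhere for every
Lebesgue measurable set. -/
theorem result : ∀ T : ℝ → ℝ, IsBrokenLinear T →
    ((∀ R : Set ℝ, NullMeasurableSet R volume → R ⊆ Icc 0 1 →
      ∀ᵐ p ∂(volume.restrict (Icc (0 : ℝ) 1)), ∃ L : ℝ, Tendsto (ergAvg T R p) atTop (𝓝 L)) ↔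
    (¬ HasAttr T ∧ FlatEvPer T)) :=
  fun _ hT => C.q1_class hT

end Pool.Agent.Results.MP_8df504_an.Q1Class
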