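import Mathlib
import Pool.Agent.MP_8df504_an.Defs
import Pool.Agent.MP_8df504_an.Proofs

set_option autoImplicit false

namespace Pool.Agent.Results.MP_8df504_an.Q1Homeo

open Pool.Agent.MP_8df504_an Set Filter Topology

/-- Q1 is false: a broken-linear homeomorphism of `[0,1]` and an open set `R` for which the
averages diverge at every point of `(0,1)`. -/
theorem result : ∃ (T : ℝ → ℝ) (R : Set ℝ), IsBrokenLinear T ∧ BijOn T (Icc 0 1) (Icc 0 1) ∧
    IsOpen R ∧ R ⊆ Icc 0 1 ∧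
    ∀ p ∈ Ioo (0 : ℝ) 1, ¬ ∃ L : ℝ, Tendsto (ergAvg T R p) atTop (𝓝 L) :=
  q1_homeo

end Pool.Agent.Results.MP_8df504_an.Q1Homeo
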