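import Mathlib
import Pool.Agent.MP_8df504_an.Defs
import Pool.Agent.MP_8df504_an.ClassDefs
import Pool.Agent.Mg.F8df504.G07448c

set_option autoImplicit false

namespace Pool.Agent.Results.MP_8df504_an.Q2Class

open Pool.Agent.MP_8df504_an Set Filter Topology MeasureTheory

/-- The broken-linear maps for which every almost everywhere defined limit function takes
finitely many values. -/
theorem result : ∀ T : ℝ → ℝ, IsBrokenLinear T →
    ((∀ (R : Set ℝ) (L : ℝ → ℝ), NullMeasurableSet R volume → R ⊆ Icc 0 1 →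
      (∀ᵐ p ∂(volume.restrict (Icc (0 : ℝ) 1)), Tendsto (ergAvg T R p) atTop (𝓝 (L p))) →
      ∃ F : Finset ℝ, ∀ᵐ p ∂(volume.restrict (Icc (0 : ℝ) 1)), L p ∈ F) ↔ ¬ HasAttr T) :=
  fun _ hT => C.q2_class hT

end Pool.Agent.Results.MP_8df504_an.Q2Class
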