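import Mathlib
import Pool.Agent.MP_8df504_an.Defs
import Pool.Agent.MP_8df504_an.Proofs

set_option autoImplicit false

namespace Pool.Agent.Results.MP_8df504_an.Q2Homeo

open Pool.Agent.MP_8df504_an Set Filter Topology MeasureTheory

/-- Q2 is false: the limit exists everywhere but takes uncountably many values on every set of
full measure. -/
theorem result : ∃ (T : ℝ → ℝ) (R : Set ℝ) (L : ℝ → ℝ), IsBrokenLinear T ∧
    BijOn T (Icc 0 1) (Icc 0 1) ∧ MeasurableSet R ∧ R ⊆ Icc 0 1 ∧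
    (∀ p ∈ Icc (0 : ℝ) 1, Tendsto (ergAvg T R p) atTop (𝓝 (L p))) ∧
    ∀ E ⊆ Icc (0 : ℝ) 1, volume (Icc (0 : ℝ) 1 \ E) = 0 → ¬ (L '' E).Countable :=
  q2_homeo

end Pool.Agent.Results.MP_8df504_an.Q2Homeo
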